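import Pool.Agent.H80.RA.Rel
import Pool.Agent.H28.JT.Both
import Pool.Agent.H80.VNFinal

set_option autoImplicit false

/-!
# RA: two commuting embeddings
-/

universe u

open Filter Topology H80VN Pool.Agent.H68.Amp Pool.Agent.H28.JP Pool.Agent.H28.JT

namespace Pool.Agent.H80.RA

section

variable {M : Type u} [CStarAlgebra M] {τ : M →ₗ[ℂ] ℂ} (h : Stmt.IsII1Factor τ)
  (ω : Ultrafilter ℕ)

/-- The conjugate of a ⋆-homomorphism by a unitary. -/
noncomputable def conjHom (π : M →⋆ₐ[ℂ] UPow (vn h) (ω : Filter ℕ))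
    {a : UPow (vn h) (ω : Filter ℕ)} (ha : star a * a = 1) (ha' : a * star a = 1) :
    M →⋆ₐ[ℂ] UPow (vn h) (ω : Filter ℕ) where
  toFun x := star a * π x * a
  map_one' := by rw [map_one, mul_one, ha]
  map_mul' x y := by
    rw [map_mul]
    calc star a * (π x * π y) * a = star a * π x * 1 * π y * a := by
          rw [mul_one]; simp only [mul_assoc]
      _ = star a * π x * a * (star a * π y * a) := by
          rw [← ha']; simp only [mul_assoc]
  map_zero' := by rw [map_zero, mul_zero, zero_mul]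
  map_add' x y := by rw [map_add, mul_add, add_mul]
  commutes' c := by
    rw [Algebra.algebraMap_eq_smul_one, map_smul, map_one, mul_smul_comm, mul_one, smul_mul_assoc,
      ha, Algebra.algebraMap_eq_smul_one]
  map_star' x := by
    rw [map_star, star_mul, star_mul, star_star, mul_assoc]

/-- An embedding `φ : M → M^ω` whose range commutes with `M`, and which is conjugate to the
diagonal embedding. -/
theorem exists_displace (hJ : JungProperty (vn h) (ω : Filter ℕ))
    (hc : CommutingEmbeddings (vn h) (ω : Filter ℕ)) :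
    ∃ φ : M →⋆ₐ[ℂ] UPow (vn h) (ω : Filter ℕ),
      (∀ x y, φ x * diag (vn h) (ω : Filter ℕ) y = diag (vn h) (ω : Filter ℕ) y * φ x) ∧
      ∃ u ∈ unitary (UPow (vn h) (ω : Filter ℕ)), ∀ x,
        φ x = u * diag (vn h) (ω : Filter ℕ) x * star u := by
  obtain ⟨π, ρ, hπ, hρ, hcomm⟩ := hc
  obtain ⟨a, ha, hax⟩ := hJ (diag (vn h) (ω : Filter ℕ)) π (tracePres h ω _) hπ
  have ha1 : star a * a = 1 := Unitary.star_mul_self_of_mem ha
  have ha2 : a * star a = 1 := Unitary.mul_star_self_of_mem ha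
  refine ⟨conjHom h ω ρ ha1 ha2, fun x y => ?_, ?_⟩
  · show star a * ρ x * a * diag (vn h) (ω : Filter ℕ) y =
      diag (vn h) (ω : Filter ℕ) y * (star a * ρ x * a)
    have h1 : a * diag (vn h) (ω : Filter ℕ) y = π y * a := by
      rw [hax, mul_assoc _ (star a), ha1, mul_one]
    have h2 : diag (vn h) (ω : Filter ℕ) y * star a = star a * π y := by
      rw [hax, ← mul_assoc, ← mul_assoc, ha1, one_mul]
    calc star a * ρ x * a * diag (vn h) (ω : Filter ℕ) y
        = star a * (ρ x * (a * diag (vn h) (ω : Filter ℕ) y)) := by simp only [mul_assoc]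
      _ = star a * (ρ x * π y * a) := by rw [h1, mul_assoc]
      _ = star a * π y * ρ x * a := by rw [← hcomm]; simp only [mul_assoc]
      _ = diag (vn h) (ω : Filter ℕ) y * (star a * ρ x * a) := by
          rw [← h2]; simp only [mul_assoc]
  · exact hJ (diag (vn h) (ω : Filter ℕ)) _ (tracePres h ω _) (tracePres h ω _)

/-- Self-displacement by contractions of `M`. -/
theorem exists_contractions {φ : M →⋆ₐ[ℂ] UPow (vn h) (ω : Filter ℕ)}
    (hφ : ∀ x y, φ x * diag (vn h) (ω : Filter ℕ) y = diag (vn h) (ω : Filter ℕ) y * φ x)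
    {u : UPow (vn h) (ω : Filter ℕ)} (hu : u ∈ unitary (UPow (vn h) (ω : Filter ℕ)))
    (hux : ∀ x, φ x = u * diag (vn h) (ω : Filter ℕ) x * star u) (F : Finset M) (ε : ℝ)
    (hε : 0 < ε) : ∃ v : M, ‖v‖ ≤ 1 ∧ Stmt.norm2 τ (1 - star v * v) ≤ ε ∧ ∀ f ∈ F, ∀ g ∈ F,
      Stmt.norm2 τ (v * f * star v * g - g * (v * f * star v)) ≤ ε := by
  let _ : TracialVN M := toTracialVN (vn h)
  have hu1 : star u * u = 1 := Unitary.star_mul_self_of_mem hu
  obtain ⟨s, hs⟩ := UPow.mk_surjective (vn h) (ω : Filter ℕ) u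
  have h1 : Tendsto (fun k => n2 (star (s.seq k) * s.seq k - 1)) (ω : Filter ℕ) (𝓝 0) := by
    have h2 : UPow.mk (vn h) (ω : Filter ℕ) (star s * s) = UPow.mk (vn h) (ω : Filter ℕ) 1 := by
      rw [map_mul, ← UPow.star_mk, hs, hu1, map_one]
    rw [UPow.mk_eq] at h2
    exact h2
  choose v hv1 hv2 hv3 using fun k => exists_contraction (s.seq k)
  let V : LInf M := ⟨v, 1, hv1⟩
  have hV : UPow.mk (vn h) (ω : Filter ℕ) V = u := by
    rw [← hs, UPow.mk_eq]
    exact squeeze_zero (fun k => n2_nonneg _) hv2 h1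
  have hc : ∀ f g : M, Tendsto (fun k => Stmt.norm2 τ (v k * f * star (v k) * g -
      g * (v k * f * star (v k)))) (ω : Filter ℕ) (𝓝 0) := by
    intro f g
    have h2 := hφ f g
    rw [hux, ← hV, UPow.star_mk, diag_eq, diag_eq, ← map_mul, ← map_mul, ← map_mul, ← map_mul,
      UPow.mk_eq] at h2
    exact h2
  have h3 : ∀ᶠ k in (ω : Filter ℕ), ∀ f ∈ F, ∀ g ∈ F,
      Stmt.norm2 τ (v k * f * star (v k) * g - g * (v k * f * star (v k))) ≤ ε := by
    rw [Filter.eventually_all_finset]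
    intro f _
    rw [Filter.eventually_all_finset]
    intro g _
    exact (hc f g).eventually (Iic_mem_nhds hε)
  have h4 : ∀ᶠ k in (ω : Filter ℕ), n2 (star (s.seq k) * s.seq k - 1) ≤ ε / 2 :=
    h1.eventually (Iic_mem_nhds (by positivity))
  obtain ⟨k, hk3, hk4⟩ := (h3.and h4).exists
  refine ⟨v k, hv1 k, ?_, hk3⟩
  have h5 := hv3 k
  show n2 (1 - star (v k) * v k) ≤ ε
  rw [n2_sub_comm]
  linarith

/-- (a) -/
theorem gamma_of_commuting (hJ : JungProperty (vn h) (ω : Filter ℕ))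
    (hc : CommutingEmbeddings (vn h) (ω : Filter ℕ)) : Stmt.Gamma τ := by
  by_contra hG
  obtain ⟨π, ρ, hπ, hρ, hcomm⟩ := hc
  have h1 : ∀ x, ∃ c : ℂ, ρ x = c • (1 : UPow (vn h) (ω : Filter ℕ)) := fun x =>
    comm_part h ω hJ hG π (ρ x) fun y => (hcomm y x).symm
  -- `M` is commutative
  have h2 : ∀ x y : M, x * y = y * x := by
    intro x y
    obtain ⟨c, hc⟩ := h1 x
    have h3 : ρ (x * y - y * x) = 0 := by
      rw [map_sub, map_mul, map_mul, hc, smul_mul_assoc, mul_smul_comm, one_mul, mul_one, sub_self]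
    have h4 : ρ (star (x * y - y * x) * (x * y - y * x)) = 0 := by rw [map_mul, h3, mul_zero]
    have h5 := hρ (star (x * y - y * x) * (x * y - y * x)) 0 (by rw [h4, map_zero])
    have h6 : τ (star (x * y - y * x) * (x * y - y * x)) = 0 := by
      refine (tendsto_nhds_unique h5 ?_)
      have h7 : (fun k => τ ((0 : LInf M).seq k)) = fun _ => 0 := by
        funext k
        exact map_zero τ
      rw [h7]
      exact tendsto_const_nhds
    exact sub_eq_zero.1 (h.1.faithful _ h6)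
  have h3 : ∀ x : M, ∃ c : ℂ, x = c • (1 : M) := fun x => h.2.1 x (h2 x)
  refine h.2.2 ?_
  refine FiniteDimensional.of_surjective (LinearMap.toSpanSingleton ℂ M (1 : M)) fun x => ?_
  obtain ⟨c, hc⟩ := h3 x
  exact ⟨c, hc.symm⟩

/-- (b) -/
theorem not_stronglyMcDuff (hJ : JungProperty (vn h) (ω : Filter ℕ))
    (hc : CommutingEmbeddings (vn h) (ω : Filter ℕ)) : ¬ Stmt.StronglyMcDuff τ := by
  rintro ⟨N, R, _, _, ρ, σ, hN, -, hG, ⟨hR, ψ, hmono, hdense'⟩, ⟨i, j, hcomm, htr, hdense⟩⟩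
  obtain ⟨φ, hφ, u, hu, hux⟩ := exists_displace h ω hJ hc
  let _ : TracialVN M := toTracialVN h.1
  let _ : TracialVN N := toTracialVN hN.1
  let _ : TracialVN R := toTracialVN hR
  have hS : Split i j ψ :=
    { comm := hcomm
      trace := htr
      dense := hdense
      mono := hmono
      dense' := hdense' }
  have hM : IsFactor M := h.2.1
  have hNf : IsFactor N := hN.2.1
  exact main_contradiction hM hNf hN.2.2 hG hS fun F ε hε =>
    exists_contractions h ω hφ hu hux F ε hε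

end

/-- (c) -/
theorem moves_of_commuting {M N P : Type u} [CStarAlgebra M] [CStarAlgebra N] [CStarAlgebra P]
    {τ : M →ₗ[ℂ] ℂ} {ρ : N →ₗ[ℂ] ℂ} {σ : P →ₗ[ℂ] ℂ} (h : Stmt.IsII1Factor τ) (ω : Ultrafilter ℕ)
    (hJ : JungProperty (vn h) (ω : Filter ℕ))
    (hc : CommutingEmbeddings (vn h) (ω : Filter ℕ)) (hN : Stmt.IsII1Factor ρ)
    (hP : Stmt.IsTracialVN σ) {i : N →⋆ₐ[ℂ] M} {j : P →⋆ₐ[ℂ] M} (hij : TensorVia τ ρ σ i j)
    (hG : ¬ Stmt.Gamma ρ) :
    MovesInto (vn h) (ω : Filter ℕ) (Set.range i) (Set.range j) := by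
  obtain ⟨φ, hφ, -⟩ := exists_displace h ω hJ hc
  let _ : TracialVN M := toTracialVN h.1
  let _ : TracialVN N := toTracialVN hN.1
  let _ : TracialVN P := toTracialVN hP
  have hTen : Ten i j := ⟨hij.comm, hij.trace, hij.dense⟩
  have hs : Ten j i := hTen.swap
  obtain ⟨F, K, hF, hK, hgap⟩ := gap_of_not_gamma (show IsFactor N from hN.2.1) hN.2.2 hG
  choose E hEn hE using fun z => exists_cond' (show IsFactor N from hN.2.1) hs z
  have hE' : IsE j E := hE
  refine ⟨φ, tracePres h ω φ, ?_⟩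
  rintro _ ⟨x, rfl⟩
  obtain ⟨s, hsx⟩ := UPow.mk_surjective (vn h) (ω : Filter ℕ) (φ (i x))
  obtain ⟨C, hC⟩ := s.2
  let b : LInf P := ⟨fun k => E (s.seq k), C, fun k => (hEn _).trans (hC k)⟩
  refine ⟨seqMap j b, fun k => ⟨E (s.seq k), rfl⟩, ?_⟩
  rw [← hsx]
  symm
  rw [UPow.mk_eq]
  have hsj : ∀ y : N, Tendsto (fun k => n2 (i y * s.seq k - s.seq k * i y)) (ω : Filter ℕ)
      (𝓝 0) := by
    intro y
    have h1 := (hφ (i x) (i y)).symm
    rw [← hsx, diag_eq, ← map_mul, ← map_mul, UPow.mk_eq] at h1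
    exact h1
  show Tendsto (fun k => n2 (s.seq k - j (E (s.seq k)))) (ω : Filter ℕ) (𝓝 0)
  rw [Metric.tendsto_nhds]
  intro ε hε
  have hpos : (0 : ℝ) < 2 * √(K * F.card) + 1 := by positivity
  have h1 : ∀ᶠ k in (ω : Filter ℕ), ∀ f ∈ F,
      n2 (i f * s.seq k - s.seq k * i f) ≤ ε / 2 / (2 * √(K * F.card) + 1) := by
    rw [Filter.eventually_all_finset]
    intro f _
    exact (hsj f).eventually (Iic_mem_nhds (by positivity))
  filter_upwards [h1] with k hk
  have h2 := gap_tensor (show IsFactor M from h.2.1) hs hE' hF hK hgap (by positivity) hk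
  have h3 : (2 * √(K * F.card) + 1) * (ε / 2 / (2 * √(K * F.card) + 1)) = ε / 2 := by
    field_simp
  rw [h3] at h2
  rw [Real.dist_eq, sub_zero, abs_of_nonneg (n2_nonneg _)]
  linarith

end Pool.Agent.H80.RA
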