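import Pool.Agent.H80.RA.Defs

set_option autoImplicit false
set_option linter.unusedSectionVars false

/-!
# RA: crossed products

If the unitaries of a (cocycle) crossed product `P ⋊ Γ` are amenable relative to `P`, then `Γ` is
amenable.
-/

universe u

open Filter Topology H80VN Pool.Agent.H68.Amp Pool.Agent.H28.JP Pool.Agent.H28.JT

namespace Pool.Agent.H80.RA

open scoped InnerProductSpace

section

variable {M H : Type u} [CStarAlgebra M] [NormedAddCommGroup H] [InnerProductSpace ℂ H]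
  [CompleteSpace H] {τ : M →ₗ[ℂ] ℂ} {η : M →ₗ[ℂ] H} {L : M →⋆ₐ[ℂ] (H →L[ℂ] H)}
  {R : M → (H →L[ℂ] H)} {P : StarSubalgebra ℂ M} {Γ : Type u} [Group Γ] {u : Γ → M}

theorem IsL2.norm_eta (hL : IsL2 τ η L R) (x : M) : ‖η x‖ = Stmt.norm2 τ x := by
  have h1 : ‖η x‖ ^ 2 = (τ (star x * x)).re := by
    rw [← hL.inner, ← inner_self_eq_norm_sq (𝕜 := ℂ)]
    rfl
  unfold Stmt.norm2
  rw [← h1, Real.sqrt_sq (norm_nonneg _)]

theorem IsL2.ext (hL : IsL2 τ η L R) {S T : H →L[ℂ] H} (h : ∀ x, S (η x) = T (η x)) : S = T := by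
  have h1 : (fun v => S v) = fun v => T v :=
    DenseRange.equalizer hL.dense S.continuous T.continuous (funext h)
  ext v
  exact congrFun h1 v

/-- Operators which agree on the `η (a * u g)` agree. -/
theorem IsL2.ext_crossed (hL : IsL2 τ η L R) (hc : IsCrossed τ P u) {S T : H →L[ℂ] H}
    (h : ∀ a ∈ P, ∀ g, S (η (a * u g)) = T (η (a * u g))) : S = T := by
  refine hL.ext fun x => ?_
  rw [← sub_eq_zero, ← norm_le_zero_iff]
  refine le_of_forall_pos_le_add fun ε hε => ?_
  obtain ⟨m, a, g, ha, hag⟩ := hc.dense x (ε / (‖S - T‖ + 1)) (by positivity)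
  have h1 : (S - T) (η (∑ l, a l * u (g l))) = 0 := by
    rw [map_sum, map_sum]
    refine Finset.sum_eq_zero fun l _ => ?_
    rw [sub_apply, h _ (ha l), sub_self]
  have h2 : S (η x) - T (η x) = (S - T) (η (x - ∑ l, a l * u (g l))) := by
    rw [map_sub, map_sub, h1, sub_zero]
    rfl
  rw [h2, zero_add]
  refine ((S - T).le_opNorm _).trans ?_
  rw [hL.norm_eta]
  have h3 : (‖S - T‖ + 1) * Stmt.norm2 τ (x - ∑ l, a l * u (g l)) ≤
      (‖S - T‖ + 1) * (ε / (‖S - T‖ + 1)) := by
    gcongr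
  have h4 : (‖S - T‖ + 1) * (ε / (‖S - T‖ + 1)) = ε := by field_simp
  have h5 : 0 ≤ Stmt.norm2 τ (x - ∑ l, a l * u (g l)) := Real.sqrt_nonneg _
  nlinarith

/-- The closed span of the `η (a * u g)`, `g ∈ S`. -/
noncomputable def VS (η : M →ₗ[ℂ] H) (P : StarSubalgebra ℂ M) (u : Γ → M) (S : Set Γ) :
    Submodule ℂ H :=
  (Submodule.span ℂ {v | ∃ a ∈ P, ∃ g ∈ S, v = η (a * u g)}).topologicalClosure

instance (S : Set Γ) : CompleteSpace (VS η P u S) := by
  unfold VS
  infer_instance

instance (S : Set Γ) : (VS η P u S).HasOrthogonalProjection := inferInstance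

/-- The orthogonal projection onto it. -/
noncomputable def ES (η : M →ₗ[ℂ] H) (P : StarSubalgebra ℂ M) (u : Γ → M) (S : Set Γ) :
    H →L[ℂ] H := (VS η P u S).starProjection

theorem mem_VS {S : Set Γ} {a : M} (ha : a ∈ P) {g : Γ} (hg : g ∈ S) : η (a * u g) ∈ VS η P u S :=
  Submodule.le_topologicalClosure _ (Submodule.subset_span ⟨a, ha, g, hg, rfl⟩)

theorem ES_of_mem {S : Set Γ} {a : M} (ha : a ∈ P) {g : Γ} (hg : g ∈ S) :
    ES η P u S (η (a * u g)) = η (a * u g) :=
  Submodule.starProjection_eq_self_iff.2 (mem_VS ha hg)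

theorem inner_eq_zero (hL : IsL2 τ η L R) (hc : IsCrossed τ P u) (ht : ∀ x y, τ (x * y) = τ (y * x))
    {a b : M} (ha : a ∈ P) (hb : b ∈ P) {g h : Γ} (hgh : g ≠ h) :
    ⟪η (b * u h), η (a * u g)⟫_ℂ = 0 := by
  have hq : u g * star (u h) * star (u (g * h⁻¹)) ∈ P := by
    have h1 := hc.mul (g * h⁻¹) h
    rw [inv_mul_cancel_right] at h1
    have h2 := star_mem h1
    rw [star_mul, star_mul, star_star, ← mul_assoc] at h2
    exact h2
  have h1 : u g * star (u h) = u g * star (u h) * star (u (g * h⁻¹)) * u (g * h⁻¹) := by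
    rw [mul_assoc _ (star (u (g * h⁻¹))), Unitary.star_mul_self_of_mem (hc.unitary _), mul_one]
  rw [hL.inner, star_mul, mul_assoc, ht, mul_assoc, mul_assoc, h1, ← mul_assoc, ← mul_assoc]
  have h2 : star b * a * (u g * star (u h) * star (u (g * h⁻¹))) ∈ P :=
    mul_mem (mul_mem (star_mem hb) ha) hq
  refine hc.orth (g * h⁻¹) (fun h3 => hgh (mul_inv_eq_one.1 h3)) _ ?_
  exact h2

theorem ES_of_not_mem (hL : IsL2 τ η L R) (hc : IsCrossed τ P u)
    (ht : ∀ x y, τ (x * y) = τ (y * x)) {S : Set Γ} {a : M} (ha : a ∈ P) {g : Γ} (hg : g ∉ S) :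
    ES η P u S (η (a * u g)) = 0 := by
  unfold ES
  rw [Submodule.starProjection_apply_eq_zero_iff]
  unfold VS
  rw [Submodule.orthogonal_closure, Submodule.mem_orthogonal]
  intro w hw
  induction hw using Submodule.span_induction with
  | mem w hw =>
    obtain ⟨b, hb, h, hh, rfl⟩ := hw
    exact inner_eq_zero hL hc ht ha hb fun hgh => hg (hgh ▸ hh)
  | zero => exact inner_zero_left _
  | add x y _ _ hx hy => rw [inner_add_left, hx, hy, add_zero]
  | smul c x _ hx => rw [inner_smul_left, hx, mul_zero]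

theorem L_R (hL : IsL2 τ η L R) (x p : M) : L x * R p = R p * L x := by
  refine hL.ext fun y => ?_
  show L x (R p (η y)) = R p (L x (η y))
  rw [hL.right, hL.left, hL.left, hL.right, mul_assoc]

theorem ES_R (hL : IsL2 τ η L R) (hc : IsCrossed τ P u) (ht : ∀ x y, τ (x * y) = τ (y * x))
    (S : Set Γ) {p : M} (hp : p ∈ P) : ES η P u S * R p = R p * ES η P u S := by
  refine hL.ext_crossed hc fun a ha g => ?_
  have h1 : a * u g * p = a * (u g * p * star (u g)) * u g := by
    calc a * u g * p = a * u g * p * (star (u g) * u g) := by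
          rw [Unitary.star_mul_self_of_mem (hc.unitary g), mul_one]
      _ = a * (u g * p * star (u g)) * u g := by simp only [mul_assoc]
  have h2 : a * (u g * p * star (u g)) ∈ P := mul_mem ha (hc.normalize g p hp)
  show ES η P u S (R p (η (a * u g))) = R p (ES η P u S (η (a * u g)))
  rw [hL.right, h1]
  by_cases hg : g ∈ S
  · rw [ES_of_mem h2 hg, ES_of_mem ha hg, hL.right, h1]
  · rw [ES_of_not_mem hL hc ht h2 hg, ES_of_not_mem hL hc ht ha hg, map_zero]

theorem ES_L (hL : IsL2 τ η L R) (hc : IsCrossed τ P u) (ht : ∀ x y, τ (x * y) = τ (y * x))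
    (S : Set Γ) (h : Γ) : ES η P u ((h * ·) '' S) * L (u h) = L (u h) * ES η P u S := by
  refine hL.ext_crossed hc fun a ha g => ?_
  have h1 : u h * (a * u g) = (u h * a * star (u h)) * (u h * u g * star (u (h * g))) * u (h * g) := by
    have e1 := Unitary.star_mul_self_of_mem (hc.unitary h)
    have e2 := Unitary.star_mul_self_of_mem (hc.unitary (h * g))
    calc u h * (a * u g) = u h * a * (star (u h) * u h) * u g * (star (u (h * g)) * u (h * g)) := by
          rw [e1, e2, mul_one, mul_one, mul_assoc]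
      _ = _ := by simp only [mul_assoc]
  have h2 : (u h * a * star (u h)) * (u h * u g * star (u (h * g))) ∈ P :=
    mul_mem (hc.normalize h a ha) (hc.mul h g)
  show ES η P u ((h * ·) '' S) (L (u h) (η (a * u g))) = L (u h) (ES η P u S (η (a * u g)))
  rw [hL.left, h1]
  by_cases hg : g ∈ S
  · rw [ES_of_mem h2 (Set.mem_image_of_mem (h * ·) hg), ES_of_mem ha hg, hL.left, h1]
  · have h3 : h * g ∉ (h * ·) '' S := by
      rintro ⟨g', hg', h4⟩
      exact hg (mul_left_cancel h4 ▸ hg')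
    rw [ES_of_not_mem hL hc ht h2 h3, ES_of_not_mem hL hc ht ha hg, map_zero]

theorem ES_univ (hL : IsL2 τ η L R) (hc : IsCrossed τ P u) : ES η P u Set.univ = 1 := by
  refine hL.ext_crossed hc fun a ha g => ?_
  rw [ES_of_mem ha (Set.mem_univ g)]
  rfl

theorem ES_union (hL : IsL2 τ η L R) (hc : IsCrossed τ P u) (ht : ∀ x y, τ (x * y) = τ (y * x))
    {S T : Set Γ} (hST : Disjoint S T) : ES η P u (S ∪ T) = ES η P u S + ES η P u T := by
  refine hL.ext_crossed hc fun a ha g => ?_
  rw [add_apply]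
  by_cases hS : g ∈ S
  · have hT : g ∉ T := fun h => Set.disjoint_left.1 hST hS h
    rw [ES_of_mem ha (Set.mem_union_left T hS), ES_of_mem ha hS, ES_of_not_mem hL hc ht ha hT, add_zero]
  · by_cases hT : g ∈ T
    · rw [ES_of_mem ha (Set.mem_union_right S hT), ES_of_mem ha hT, ES_of_not_mem hL hc ht ha hS, zero_add]
    · have h1 : g ∉ S ∪ T := fun h => h.elim hS hT
      rw [ES_of_not_mem hL hc ht ha h1, ES_of_not_mem hL hc ht ha hS,
        ES_of_not_mem hL hc ht ha hT, add_zero]

theorem ES_star_mul (S : Set Γ) : star (ES η P u S) * ES η P u S = ES η P u S := by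
  have h1 : IsSelfAdjoint (ES η P u S) := isSelfAdjoint_starProjection _
  have h2 : IsIdempotentElem (ES η P u S) := Submodule.isIdempotentElem_starProjection _
  rw [h1.star_eq]
  exact h2

end

/-- If the unitaries of a crossed product are amenable relative to `P`, the group is amenable. -/
theorem amenable_group {M : Type u} [CStarAlgebra M] {τ : M →ₗ[ℂ] ℂ}
    (ht : ∀ x y, τ (x * y) = τ (y * x)) {P : StarSubalgebra ℂ M} {Γ : Type u} [Group Γ] {u : Γ → M}
    (hc : IsCrossed τ P u) (h : AmenRel τ (Set.range u) P) : IsAmenableGroup Γ := by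
  obtain ⟨H, _, _, _, η, L, R, φ, hL, hφ, -, hA⟩ := h
  refine ⟨fun S => (φ (ES η P u S)).re, fun S => ?_, ?_, fun S T hST => ?_, fun g S => ?_⟩
  · have h1 := (hφ.nonneg (ES η P u S)).1
    rwa [ES_star_mul] at h1
  · show (φ (ES η P u Set.univ)).re = 1
    rw [ES_univ hL hc, hφ.one, Complex.one_re]
  · show (φ (ES η P u (S ∪ T))).re = (φ (ES η P u S)).re + (φ (ES η P u T)).re
    rw [ES_union hL hc ht hST, map_add, Complex.add_re]
  · have h1 : L (u g) * L (star (u g)) = 1 := by
      rw [← map_mul, Unitary.mul_star_self_of_mem (hc.unitary g), map_one]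
    have h2 : L (star (u g)) * L (u g) = 1 := by
      rw [← map_mul, Unitary.star_mul_self_of_mem (hc.unitary g), map_one]
    have h3 : ES η P u ((g * ·) '' S) = L (u g) * (ES η P u S * L (star (u g))) := by
      rw [← mul_assoc, ← ES_L hL hc ht, mul_assoc, h1, mul_one]
    have h4 := hA (u g) ⟨g, rfl⟩ (ES η P u S * L (star (u g))) fun p hp => by
      rw [mul_assoc, L_R hL, ← mul_assoc, ES_R hL hc ht S hp, mul_assoc]
    show (φ (ES η P u ((g * ·) '' S))).re = (φ (ES η P u S)).re
    rw [h3, h4, mul_assoc, h2, mul_one]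

end Pool.Agent.H80.RA
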