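import Pool.Agent.H28.JT.Defs

set_option autoImplicit false

/-!
# Relative amenability

The definitions used in the statement `RelativeAmenability` on `MP_0c927e_an`, next to those of
`Pool.Agent.H80.VNStmt`, `Pool.Agent.H68.Amp.UStmt`, `Pool.Agent.H28.JP.Defs` and
`Pool.Agent.H28.JT.Defs`.
-/

universe u

open Filter Topology H80VN Pool.Agent.H68.Amp Pool.Agent.H28.JP Pool.Agent.H28.JT

namespace Pool.Agent.H80.RA

open scoped InnerProductSpace

/-- `H` is the Hilbert space `L²(M, τ)`: `η : M → H` is the canonical map, `L x` and `R x` are the left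
and right multiplications by `x ∈ M`. -/
structure IsL2 {M H : Type u} [CStarAlgebra M] [NormedAddCommGroup H] [InnerProductSpace ℂ H]
    [CompleteSpace H] (τ : M →ₗ[ℂ] ℂ) (η : M →ₗ[ℂ] H) (L : M →⋆ₐ[ℂ] (H →L[ℂ] H))
    (R : M → (H →L[ℂ] H)) : Prop where
  inner : ∀ x y, ⟪η x, η y⟫_ℂ = τ (star x * y)
  dense : DenseRange η
  left : ∀ x y, L x (η y) = η (x * y)
  right : ∀ x y, R x (η y) = η (y * x)

/-- `φ` is a state on `B(H)`. -/
structure IsState {H : Type u} [NormedAddCommGroup H] [InnerProductSpace ℂ H] [CompleteSpace H]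
    (φ : (H →L[ℂ] H) →ₗ[ℂ] ℂ) : Prop where
  nonneg : ∀ T, 0 ≤ (φ (star T * T)).re ∧ (φ (star T * T)).im = 0
  one : φ 1 = 1

/-- There is a state `φ` on `B(H)`, `H = L²(M, τ)`, with `φ (L x) = τ x` for `x ∈ M` and
`φ (L a * T) = φ (T * L a)` for all `a ∈ A` and all `T` which commute with the right multiplications
by the elements of `P`. -/
inductive RelTrace {M : Type u} (H : Type u) [CStarAlgebra M] [NormedAddCommGroup H]
    [InnerProductSpace ℂ H] [CompleteSpace H] (τ : M →ₗ[ℂ] ℂ) (A P : Set M) : Prop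
  | intro (η : M →ₗ[ℂ] H) (L : M →⋆ₐ[ℂ] (H →L[ℂ] H)) (R : M → (H →L[ℂ] H))
      (φ : (H →L[ℂ] H) →ₗ[ℂ] ℂ) (isL2 : IsL2 τ η L R) (isState : IsState φ)
      (trace : ∀ x, φ (L x) = τ x)
      (comm : ∀ a ∈ A, ∀ T : H →L[ℂ] H, (∀ p ∈ P, T * R p = R p * T) →
        φ (L a * T) = φ (T * L a)) : RelTrace H τ A P

/-- `A` is amenable relative to `P` inside `(M, τ)`: there is a state `φ` on `B(L²(M, τ))` with
`φ (L x) = τ x` for `x ∈ M` and `φ (L a * T) = φ (T * L a)` for all `a ∈ A` and all `T` which commute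
with the right multiplications by the elements of `P`. -/
def AmenRel {M : Type u} [CStarAlgebra M] (τ : M →ₗ[ℂ] ℂ) (A P : Set M) : Prop :=
  ∃ (H : Type u) (_ : NormedAddCommGroup H) (_ : InnerProductSpace ℂ H) (_ : CompleteSpace H),
    RelTrace H τ A P

/-- `(M, τ)` is amenable: there is a state `φ` on `B(L²(M, τ))` with `φ (L x) = τ x` and
`φ (L x * T) = φ (T * L x)` for all `x ∈ M` and all `T`. -/
def Amenable {M : Type u} [CStarAlgebra M] (τ : M →ₗ[ℂ] ℂ) : Prop := AmenRel τ Set.univ ∅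

section

variable {M : Type u} [CStarAlgebra M] {τ : M →ₗ[ℂ] ℂ} (h : Stmt.IsTracialVN τ) (ω : Filter ℕ)

/-- `a ∈ M^ω` is the class of a bounded sequence in `P`, that is `a ∈ P^ω`. -/
def InUPow (P : Set M) (a : UPow h ω) : Prop :=
  ∃ s : LInf M, (∀ k, s.seq k ∈ P) ∧ UPow.mk h ω s = a

/-- Some trace preserving unital ⋆-homomorphism `M → M^ω` maps `A` into `P^ω`. -/
def MovesInto (A P : Set M) : Prop :=
  ∃ π : M →⋆ₐ[ℂ] UPow h ω, TracePres h ω π ∧ ∀ a ∈ A, InUPow h ω P (π a)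

/-- There are two embeddings (trace preserving unital ⋆-homomorphisms) `M → M^ω` whose ranges
commute. -/
def CommutingEmbeddings : Prop :=
  ∃ π ρ : M →⋆ₐ[ℂ] UPow h ω, TracePres h ω π ∧ TracePres h ω ρ ∧ ∀ x y, π x * ρ y = ρ y * π x

end

/-- There is a trace preserving unital ⋆-homomorphism `N → P^ω`. -/
def EmbedsInUPow {N P : Type u} [CStarAlgebra N] [CStarAlgebra P] (ρ : N →ₗ[ℂ] ℂ)
    {σ : P →ₗ[ℂ] ℂ} (hP : Stmt.IsTracialVN σ) (ω : Filter ℕ) : Prop :=
  ∃ α : N →⋆ₐ[ℂ] UPow hP ω, Pres hP ω ρ α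

/-- `(M, τ)` is the cocycle crossed product of `P ⊆ M` by the group `Γ`, with the unitaries `u g`: these
normalize `P`, `u g * u h ∈ P * u (g * h)`, the subspaces `P * u g` are orthogonal for the trace, and
their span is dense in the 2-norm. -/
structure IsCrossed {M : Type u} [CStarAlgebra M] (τ : M →ₗ[ℂ] ℂ) (P : StarSubalgebra ℂ M)
    {Γ : Type u} [Group Γ] (u : Γ → M) : Prop where
  unitary : ∀ g, u g ∈ unitary M
  normalize : ∀ g, ∀ p ∈ P, u g * p * star (u g) ∈ P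
  mul : ∀ g h, u g * u h * star (u (g * h)) ∈ P
  orth : ∀ g, g ≠ 1 → ∀ p ∈ P, τ (p * u g) = 0
  dense : ∀ (z : M) (ε : ℝ), 0 < ε → ∃ (m : ℕ) (a : Fin m → M) (g : Fin m → Γ),
    (∀ l, a l ∈ P) ∧ Stmt.norm2 τ (z - ∑ l, a l * u (g l)) < ε

/-- `Γ` is an amenable group: it has a finitely additive left invariant probability measure. -/
def IsAmenableGroup (Γ : Type u) [Group Γ] : Prop :=
  ∃ m : Set Γ → ℝ, (∀ S, 0 ≤ m S) ∧ m Set.univ = 1 ∧
    (∀ S T, Disjoint S T → m (S ∪ T) = m S + m T) ∧ ∀ (g : Γ) (S : Set Γ), m ((g * ·) '' S) = m S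

end Pool.Agent.H80.RA
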