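import Pool.Agent.H80.RA.Rel
import Pool.Agent.H28.JT.Fin

set_option autoImplicit false

/-!
# RA: the flip
-/

universe u

open Filter Topology H80VN Pool.Agent.H68.Amp Pool.Agent.H28.JP Pool.Agent.H28.JT
open scoped TensorProduct

namespace Pool.Agent.H80.RA

variable {M N P : Type u} [CStarAlgebra M] [CStarAlgebra N] [CStarAlgebra P]
  {τ : M →ₗ[ℂ] ℂ} {ρ : N →ₗ[ℂ] ℂ} {σ : P →ₗ[ℂ] ℂ}

/-- Commuting maps `N → P^ω ⊆ M^ω` and `P → N^ω ⊆ M^ω` define an embedding of `M = N ⊗ P`. -/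
theorem exists_flip (hM : Stmt.IsTracialVN τ) (hN : Stmt.IsTracialVN ρ) (hP : Stmt.IsTracialVN σ)
    (i : N →⋆ₐ[ℂ] M) (j : P →⋆ₐ[ℂ] M) (hij : TensorVia τ ρ σ i j)
    (ω : Ultrafilter ℕ) (hω : (ω : Filter ℕ) ≤ atTop)
    (I : UPow hN (ω : Filter ℕ) →⋆ₐ[ℂ] UPow hM (ω : Filter ℕ))
    (hI : ∀ s, I (UPow.mk hN (ω : Filter ℕ) s) = UPow.mk hM (ω : Filter ℕ) (seqMap i s))
    (J : UPow hP (ω : Filter ℕ) →⋆ₐ[ℂ] UPow hM (ω : Filter ℕ))
    (hJ : ∀ s, J (UPow.mk hP (ω : Filter ℕ) s) = UPow.mk hM (ω : Filter ℕ) (seqMap j s))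
    (α : N →⋆ₐ[ℂ] UPow hP (ω : Filter ℕ)) (hα : Pres hP (ω : Filter ℕ) ρ α)
    (β : P →⋆ₐ[ℂ] UPow hN (ω : Filter ℕ)) (hβ : Pres hN (ω : Filter ℕ) σ β) :
    ∃ φ : M →⋆ₐ[ℂ] UPow hM (ω : Filter ℕ), (∀ x, φ (i x) = J (α x)) ∧
      ∀ y, φ (j y) = I (β y) := by
  let d : N ⊗[ℂ] P →ₐ[ℂ] M := Algebra.TensorProduct.lift (i : N →ₐ[ℂ] M) (j : P →ₐ[ℂ] M)
    (fun x y => hij.comm x y)
  have hd : ∀ x y, d (x ⊗ₜ y) = i x * j y := fun x y => Algebra.TensorProduct.lift_tmul _ _ _ _ _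
  have hc2 : ∀ x y, J (α x) * I (β y) = I (β y) * J (α x) := by
    intro x y
    obtain ⟨s, hs⟩ := UPow.mk_surjective hP (ω : Filter ℕ) (α x)
    obtain ⟨t, ht⟩ := UPow.mk_surjective hN (ω : Filter ℕ) (β y)
    rw [← hs, ← ht, hI, hJ, ← map_mul, ← map_mul]
    exact congrArg _ (LInf.ext' fun k => (hij.comm _ _).symm)
  let B : N ⊗[ℂ] P →ₐ[ℂ] UPow hM (ω : Filter ℕ) := Algebra.TensorProduct.lift
    ((J.comp α : N →⋆ₐ[ℂ] UPow hM (ω : Filter ℕ)) : N →ₐ[ℂ] UPow hM (ω : Filter ℕ))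
    ((I.comp β : P →⋆ₐ[ℂ] UPow hM (ω : Filter ℕ)) : P →ₐ[ℂ] UPow hM (ω : Filter ℕ))
    (fun x y => hc2 x y)
  have hB : ∀ x y, B (x ⊗ₜ y) = J (α x) * I (β y) :=
    fun x y => Algebra.TensorProduct.lift_tmul _ _ _ _ _
  obtain ⟨t, ht, -, -, -⟩ := exists_utr' hM ω
  obtain ⟨φ, hφ⟩ := extend hM ω hω d B
    (fun T => by
      induction T using TensorProduct.induction_on with
      | zero => exact ⟨0, by rw [map_zero, star_zero], by rw [map_zero, star_zero]⟩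
      | tmul x y =>
        refine ⟨star x ⊗ₜ star y, ?_, ?_⟩
        · rw [hd, hd, star_mul, ← map_star, ← map_star, hij.comm]
        · rw [hB, hB, star_mul, ← map_star, ← map_star, ← map_star, ← map_star, hc2]
      | add T S hT hS =>
        obtain ⟨T', h1, h2⟩ := hT
        obtain ⟨S', h3, h4⟩ := hS
        exact ⟨T' + S', by rw [map_add, h1, h3, map_add, star_add],
          by rw [map_add, h2, h4, map_add, star_add]⟩)
    (fun T s hs => by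
      have h1 : t (B T) = τ (d T) := by
        clear hs
        induction T using TensorProduct.induction_on with
        | zero => rw [map_zero, map_zero, map_zero, map_zero]
        | tmul x y =>
          rw [hd, hB]
          obtain ⟨p, hp⟩ := UPow.mk_surjective hP (ω : Filter ℕ) (α x)
          obtain ⟨q, hq⟩ := UPow.mk_surjective hN (ω : Filter ℕ) (β y)
          rw [← hp, ← hq, hI, hJ, ← map_mul]
          have h2 := ht (seqMap j p * seqMap i q)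
          have h3 : ∀ k, τ ((seqMap j p * seqMap i q).seq k) = σ (p.seq k) * ρ (q.seq k) := by
            intro k
            show τ (j (p.seq k) * i (q.seq k)) = _
            rw [← hij.comm, hij.trace, mul_comm]
          simp only [h3] at h2
          have h4 := (hα x p hp).mul (hβ y q hq)
          rw [tendsto_nhds_unique h2 h4, hij.trace]
        | add T S hT hS => rw [map_add, map_add, map_add, map_add, hT, hS]
      rw [← h1, ← hs]
      exact ht s)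
    (fun z ε hε => by
      obtain ⟨m, a, b, hab⟩ := hij.dense z ε hε
      refine ⟨∑ l, a l ⊗ₜ b l, ?_⟩
      rw [map_sum]
      simp only [hd]
      exact hab)
  refine ⟨φ, fun x => ?_, fun y => ?_⟩
  · have h1 := hφ (x ⊗ₜ 1)
    rw [hd, hB, map_one, map_one, map_one, mul_one, mul_one] at h1
    exact h1
  · have h1 := hφ (1 ⊗ₜ y)
    rw [hd, hB, map_one i, map_one α, map_one J, one_mul, one_mul] at h1
    exact h1

theorem tr_left (hP : Stmt.IsTracialVN σ) {i : N →⋆ₐ[ℂ] M} {j : P →⋆ₐ[ℂ] M}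
    (hij : TensorVia τ ρ σ i j) (x : N) : τ (i x) = ρ x := by
  have := hij.trace x 1
  rwa [map_one, mul_one, hP.one, mul_one] at this

theorem tr_right (hN : Stmt.IsTracialVN ρ) {i : N →⋆ₐ[ℂ] M} {j : P →⋆ₐ[ℂ] M}
    (hij : TensorVia τ ρ σ i j) (y : P) : τ (j y) = σ y := by
  have := hij.trace 1 y
  rwa [map_one, one_mul, hN.one, one_mul] at this

/-- `N ⊗ P = P ⊗ N`. -/
theorem tensor_symm {i : N →⋆ₐ[ℂ] M} {j : P →⋆ₐ[ℂ] M} (hij : TensorVia τ ρ σ i j) :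
    TensorVia τ σ ρ j i where
  comm x y := (hij.comm y x).symm
  trace x y := by rw [← hij.comm, hij.trace, mul_comm]
  dense z ε hε := by
    obtain ⟨m, a, b, hab⟩ := hij.dense z ε hε
    refine ⟨m, b, a, ?_⟩
    have h1 : ∑ l, j (b l) * i (a l) = ∑ l, i (a l) * j (b l) :=
      Finset.sum_congr rfl fun l _ => (hij.comm _ _).symm
    rw [h1]
    exact hab

/-- The flip moves `N` into `P^ω` and `P` into `N^ω`. -/
theorem moves_of_embeds (hM : Stmt.IsII1Factor τ) (hN : Stmt.IsTracialVN ρ)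
    (hP : Stmt.IsTracialVN σ) {i : N →⋆ₐ[ℂ] M} {j : P →⋆ₐ[ℂ] M} (hij : TensorVia τ ρ σ i j)
    (ω : Ultrafilter ℕ) (hω : (ω : Filter ℕ) ≤ cofinite)
    (h1 : EmbedsInUPow ρ hP (ω : Filter ℕ)) (h2 : EmbedsInUPow σ hN (ω : Filter ℕ)) :
    MovesInto (vn hM) (ω : Filter ℕ) (Set.range i) (Set.range j) ∧
      MovesInto (vn hM) (ω : Filter ℕ) (Set.range j) (Set.range i) := by
  have hω' : (ω : Filter ℕ) ≤ atTop := hω.trans Nat.cofinite_eq_atTop.le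
  obtain ⟨α, hα⟩ := h1
  obtain ⟨β, hβ⟩ := h2
  obtain ⟨I, hI⟩ := exists_iU (vn hM) hN (ω : Filter ℕ) i (tr_left hP hij)
  obtain ⟨J, hJ⟩ := exists_iU (vn hM) hP (ω : Filter ℕ) j (tr_right hN hij)
  obtain ⟨φ, hφi, hφj⟩ := exists_flip (vn hM) hN hP i j hij ω hω' I hI J hJ α hα β hβ
  refine ⟨⟨φ, tracePres hM ω φ, ?_⟩, ⟨φ, tracePres hM ω φ, ?_⟩⟩
  · rintro _ ⟨x, rfl⟩
    obtain ⟨s, hs⟩ := UPow.mk_surjective hP (ω : Filter ℕ) (α x)
    exact ⟨seqMap j s, fun k => ⟨s.seq k, rfl⟩, by rw [hφi, ← hs, hJ]⟩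
  · rintro _ ⟨y, rfl⟩
    obtain ⟨s, hs⟩ := UPow.mk_surjective hN (ω : Filter ℕ) (β y)
    exact ⟨seqMap i s, fun k => ⟨s.seq k, rfl⟩, by rw [hφj, ← hs, hI]⟩

end Pool.Agent.H80.RA
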