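import Pool.Agent.H80.RA.Defs
import Pool.Agent.H80.VNExt

set_option autoImplicit false

/-!
# RA: the Hilbert space `L²(M)`, limits of functionals
-/

universe u

open Filter Topology H80VN Pool.Agent.H68.Amp Pool.Agent.H28.JP Pool.Agent.H28.JT

namespace Pool.Agent.H80.RA

open scoped InnerProductSpace
open UniformSpace

section L2

variable (M : Type u) [CStarAlgebra M] [TracialVN M]

/-- The Hilbert space `L²(M)`. -/
abbrev HL : Type u := Completion (L2 M)

/-- The canonical map. -/
noncomputable def eta : M →ₗ[ℂ] HL M where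
  toFun x := ((toL2 x : L2 M) : Completion (L2 M))
  map_add' x y := by
    rw [map_add]
    exact Completion.coe_add _ _
  map_smul' c x := by
    rw [map_smul]
    exact Completion.coe_smul _ _

variable {M}

theorem eta_apply (x : M) : eta M x = ((toL2 x : L2 M) : Completion (L2 M)) := rfl

theorem inner_eta (x y : M) : ⟪eta M x, eta M y⟫_ℂ = TracialVN.tr (star x * y) := by
  rw [eta_apply, eta_apply, Completion.inner_coe, inner_toL2]

theorem dense_eta : DenseRange (eta M) := by
  have h1 : DenseRange ((↑) : L2 M → Completion (L2 M)) := Completion.denseRange_coe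
  have h2 : Set.range (eta M) = Set.range ((↑) : L2 M → Completion (L2 M)) := by
    ext v
    constructor
    · rintro ⟨x, rfl⟩
      exact ⟨toL2 x, rfl⟩
    · rintro ⟨x, rfl⟩
      exact ⟨(toL2 : M ≃ₗ[ℂ] L2 M).symm x, rfl⟩
  show Dense (Set.range (eta M))
  rw [h2]
  exact h1

theorem ext_eta {S T : HL M →L[ℂ] HL M} (h : ∀ x, S (eta M x) = T (eta M x)) : S = T := by
  have h1 : (fun v => S v) = fun v => T v :=
    DenseRange.equalizer dense_eta S.continuous T.continuous (funext h)
  ext v
  exact congrFun h1 v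

/-- Left multiplication. -/
noncomputable def lmul (x : M) : HL M →L[ℂ] HL M := (lm x).completion

/-- Right multiplication. -/
noncomputable def rmul (x : M) : HL M →L[ℂ] HL M := (rm x).completion

theorem lmul_eta (x y : M) : lmul x (eta M y) = eta M (x * y) :=
  ContinuousLinearMap.completion_apply_coe _ _

theorem rmul_eta (x y : M) : rmul x (eta M y) = eta M (y * x) :=
  ContinuousLinearMap.completion_apply_coe _ _

theorem lmul_adj (x : M) : lmul (star x) = star (lmul x) := by
  rw [ContinuousLinearMap.star_eq_adjoint, ContinuousLinearMap.eq_adjoint_iff]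
  intro v w
  refine DenseRange.induction_on (p := fun v => ⟪lmul (star x) v, w⟫_ℂ = ⟪v, lmul x w⟫_ℂ)
    dense_eta v (isClosed_eq ((lmul (star x)).continuous.inner continuous_const)
      (continuous_id.inner continuous_const)) fun a => ?_
  refine DenseRange.induction_on
    (p := fun w => ⟪lmul (star x) (eta M a), w⟫_ℂ = ⟪eta M a, lmul x w⟫_ℂ)
    dense_eta w (isClosed_eq (continuous_const.inner continuous_id)
      (continuous_const.inner (lmul x).continuous)) fun b => ?_
  rw [lmul_eta, lmul_eta, inner_eta, inner_eta, star_mul, star_star, mul_assoc]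

theorem rmul_adj (x : M) (v w : HL M) : ⟪rmul (star x) v, w⟫_ℂ = ⟪v, rmul x w⟫_ℂ := by
  refine DenseRange.induction_on (p := fun v => ⟪rmul (star x) v, w⟫_ℂ = ⟪v, rmul x w⟫_ℂ)
    dense_eta v (isClosed_eq ((rmul (star x)).continuous.inner continuous_const)
      (continuous_id.inner continuous_const)) fun a => ?_
  refine DenseRange.induction_on
    (p := fun w => ⟪rmul (star x) (eta M a), w⟫_ℂ = ⟪eta M a, rmul x w⟫_ℂ)
    dense_eta w (isClosed_eq (continuous_const.inner continuous_id)
      (continuous_const.inner (rmul x).continuous)) fun b => ?_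
  rw [rmul_eta, rmul_eta, inner_eta, inner_eta, star_mul, star_star, mul_assoc,
    TracialVN.tr_comm, mul_assoc]

theorem norm_eta (x : M) : ‖eta M x‖ = n2 x := Completion.norm_coe _

/-- The left multiplication as a ⋆-homomorphism. -/
noncomputable def lhom : M →⋆ₐ[ℂ] (HL M →L[ℂ] HL M) where
  toFun := lmul
  map_one' := ext_eta fun y => by
    rw [lmul_eta, one_mul]
    rfl
  map_mul' a b := ext_eta fun y => by
    show _ = lmul a (lmul b (eta M y))
    rw [lmul_eta, lmul_eta, lmul_eta, mul_assoc]
  map_zero' := ext_eta fun y => by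
    rw [lmul_eta, zero_mul, map_zero]
    rfl
  map_add' a b := ext_eta fun y => by
    rw [add_apply, lmul_eta, lmul_eta, lmul_eta, add_mul, map_add]
  commutes' c := ext_eta fun y => by
    rw [lmul_eta, Algebra.algebraMap_eq_smul_one, Algebra.algebraMap_eq_smul_one, smul_mul_assoc,
      one_mul, map_smul]
    rfl
  map_star' := lmul_adj

end L2

theorem exists_L2 (M : Type u) [CStarAlgebra M] [TracialVN M] :
    ∃ (H : Type u) (_ : NormedAddCommGroup H) (_ : InnerProductSpace ℂ H) (_ : CompleteSpace H)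
      (η : M →ₗ[ℂ] H) (L : M →⋆ₐ[ℂ] (H →L[ℂ] H)) (R : M → (H →L[ℂ] H)),
      IsL2 (TracialVN.tr : M →ₗ[ℂ] ℂ) η L R :=
  ⟨HL M, inferInstance, inferInstance, inferInstance, eta M, lhom, rmul,
    { inner := inner_eta
      dense := dense_eta
      left := lmul_eta
      right := rmul_eta }⟩

/-- Pointwise limits of uniformly bounded functionals along an ultrafilter. -/
theorem exists_lim_functional {H : Type u} [NormedAddCommGroup H] [InnerProductSpace ℂ H]
    (ω : Ultrafilter ℕ) (ψ : ℕ → ((H →L[ℂ] H) →ₗ[ℂ] ℂ)) {B : ℝ}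
    (hB : ∀ k T, ‖ψ k T‖ ≤ B * ‖T‖) :
    ∃ φ : (H →L[ℂ] H) →ₗ[ℂ] ℂ, ∀ T, Tendsto (fun k => ψ k T) (ω : Filter ℕ) (𝓝 (φ T)) := by
  have hex : ∀ T : H →L[ℂ] H, ∃ c : ℂ, Tendsto (fun k => ψ k T) (ω : Filter ℕ) (𝓝 c) := by
    intro T
    have hc : IsCompact (Metric.closedBall (0 : ℂ) (B * ‖T‖)) := isCompact_closedBall _ _
    have h1 : ((ω.map fun k => ψ k T : Ultrafilter ℂ) : Filter ℂ) ≤
        𝓟 (Metric.closedBall (0 : ℂ) (B * ‖T‖)) := by
      rw [le_principal_iff]
      show (fun k => ψ k T) ⁻¹' _ ∈ (ω : Filter ℕ)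
      refine Filter.mem_of_superset Filter.univ_mem fun k _ => ?_
      rw [Set.mem_preimage, mem_closedBall_zero_iff]
      exact hB k T
    obtain ⟨c, -, hc'⟩ := hc.ultrafilter_le_nhds _ h1
    exact ⟨c, hc'⟩
  choose f hf using hex
  refine ⟨{ toFun := f
            map_add' := fun S T => ?_
            map_smul' := fun c T => ?_ }, hf⟩
  · refine tendsto_nhds_unique (hf (S + T)) ?_
    have h1 := (hf S).add (hf T)
    refine h1.congr fun k => ?_
    rw [map_add]
  · refine tendsto_nhds_unique (hf (c • T)) ?_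
    have h1 := (hf T).const_mul c
    refine h1.congr fun k => ?_
    rw [map_smul, smul_eq_mul]

end Pool.Agent.H80.RA
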