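import Pool.Agent.H80.RA.L2
import Pool.Agent.H28.JT.IU

set_option autoImplicit false

/-!
# RA: relative amenability
-/

universe u

open Filter Topology H80VN Pool.Agent.H68.Amp Pool.Agent.H28.JP Pool.Agent.H28.JT

namespace Pool.Agent.H80.RA

open scoped InnerProductSpace

theorem amenRel_core {M : Type u} [CStarAlgebra M] [TracialVN M] (ω : Ultrafilter ℕ) (s : ℕ → M)
    {C : ℝ} (hC : ∀ k, ‖s k‖ ≤ C)
    (h1 : Tendsto (fun k => n2 (star (s k) * s k - 1)) (ω : Filter ℕ) (𝓝 0))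
    (h2 : Tendsto (fun k => n2 (s k * star (s k) - 1)) (ω : Filter ℕ) (𝓝 0)) (A P : Set M)
    (hA : ∀ a ∈ A, ∃ p : ℕ → M, (∀ k, p k ∈ P) ∧
      Tendsto (fun k => n2 (a * s k - s k * p k)) (ω : Filter ℕ) (𝓝 0) ∧
      Tendsto (fun k => n2 (star a * s k - s k * star (p k))) (ω : Filter ℕ) (𝓝 0)) :
    AmenRel (TracialVN.tr : M →ₗ[ℂ] ℂ) A P := by
  have hC0 : 0 ≤ C := (norm_nonneg _).trans (hC 0)
  have hξ : ∀ k, ‖eta M (s k)‖ ≤ C := fun k => by
    rw [norm_eta]
    exact (n2_le_norm _).trans (hC k)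
  let ψ : ℕ → ((HL M →L[ℂ] HL M) →ₗ[ℂ] ℂ) := fun k =>
    { toFun := fun T => ⟪eta M (s k), T (eta M (s k))⟫_ℂ
      map_add' := fun S T => by rw [add_apply, inner_add_right]
      map_smul' := fun c T => by
        rw [smul_apply, inner_smul_right]
        rfl }
  have hψ : ∀ k T, ψ k T = ⟪eta M (s k), T (eta M (s k))⟫_ℂ := fun _ _ => rfl
  have hB : ∀ k T, ‖ψ k T‖ ≤ C * C * ‖T‖ := by
    intro k T
    rw [hψ]
    refine (norm_inner_le_norm _ _).trans ?_
    have e1 : ‖T (eta M (s k))‖ ≤ ‖T‖ * C := (T.le_opNorm _).trans (by gcongr; exact hξ k)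
    calc ‖eta M (s k)‖ * ‖T (eta M (s k))‖ ≤ C * (‖T‖ * C) := by
          gcongr
          exact hξ k
      _ = C * C * ‖T‖ := by ring
  obtain ⟨φ, hφ⟩ := exists_lim_functional ω ψ hB
  refine ⟨HL M, inferInstance, inferInstance, inferInstance, eta M, lhom, rmul, φ,
    { inner := inner_eta
      dense := dense_eta
      left := lmul_eta
      right := rmul_eta }, ⟨fun T => ?_, ?_⟩, fun x => ?_, fun a ha T hT => ?_⟩
  · have hcl : IsClosed {c : ℂ | 0 ≤ c.re ∧ c.im = 0} :=
      (isClosed_le continuous_const Complex.continuous_re).inter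
        (isClosed_eq Complex.continuous_im continuous_const)
    refine hcl.mem_of_tendsto (hφ (star T * T)) (Eventually.of_forall fun k => ?_)
    have e1 : ψ k (star T * T) = ((‖T (eta M (s k))‖ ^ 2 : ℝ) : ℂ) := by
      rw [hψ]
      show ⟪eta M (s k), star T (T (eta M (s k)))⟫_ℂ = _
      rw [ContinuousLinearMap.star_eq_adjoint, ContinuousLinearMap.adjoint_inner_right,
        inner_self_eq_norm_sq_to_K]
      norm_cast
    show 0 ≤ (ψ k (star T * T)).re ∧ (ψ k (star T * T)).im = 0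
    rw [e1]
    exact ⟨by rw [Complex.ofReal_re]; positivity, Complex.ofReal_im _⟩
  · refine tendsto_nhds_unique (hφ 1) ?_
    rw [tendsto_iff_norm_sub_tendsto_zero]
    refine squeeze_zero (fun _ => norm_nonneg _) (fun k => ?_) h1
    have e1 : ψ k 1 - 1 = TracialVN.tr (star (s k) * s k - 1) := by
      rw [hψ, map_sub, TracialVN.tr_one]
      congr 1
      exact inner_eta _ _
    rw [e1]
    exact norm_tr_le_n2 _
  · refine tendsto_nhds_unique (hφ (lhom x)) ?_
    rw [tendsto_iff_norm_sub_tendsto_zero]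
    have h3 : Tendsto (fun k => n2 x * n2 (s k * star (s k) - 1)) (ω : Filter ℕ) (𝓝 0) := by
      simpa using h2.const_mul (n2 x)
    refine squeeze_zero (fun _ => norm_nonneg _) (fun k => ?_) h3
    have e1 : ψ k (lhom x) - TracialVN.tr x = TracialVN.tr (x * (s k * star (s k) - 1)) := by
      rw [hψ, mul_sub, mul_one, map_sub]
      congr 1
      show ⟪eta M (s k), lmul x (eta M (s k))⟫_ℂ = _
      rw [lmul_eta, inner_eta, TracialVN.tr_comm, mul_assoc]
    rw [e1]
    exact cs' _ _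
  · obtain ⟨p, hp, hp1, hp2⟩ := hA a ha
    have h3 : Tendsto (fun k => ψ k (lhom a * T) - ψ k (T * lhom a)) (ω : Filter ℕ)
        (𝓝 (φ (lhom a * T) - φ (T * lhom a))) := (hφ _).sub (hφ _)
    have h4 : Tendsto (fun k => ‖T‖ * C * n2 (star a * s k - s k * star (p k)) +
        C * ‖T‖ * n2 (a * s k - s k * p k)) (ω : Filter ℕ) (𝓝 0) := by
      simpa using (hp2.const_mul (‖T‖ * C)).add (hp1.const_mul (C * ‖T‖))
    have h5 : Tendsto (fun k => ψ k (lhom a * T) - ψ k (T * lhom a)) (ω : Filter ℕ) (𝓝 0) := by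
      refine squeeze_zero_norm (fun k => ?_) h4
      set ξ : HL M := eta M (s k) with hξd
      have e1 : ψ k (lhom a * T) = ⟪lmul (star a) ξ, T ξ⟫_ℂ := by
        rw [hψ, lmul_adj, ContinuousLinearMap.star_eq_adjoint,
          ContinuousLinearMap.adjoint_inner_left]
        rfl
      have e2 : ψ k (T * lhom a) = ⟪ξ, T (lmul a ξ)⟫_ℂ := rfl
      have e3 : ⟪ξ, T (rmul (p k) ξ)⟫_ℂ = ⟪rmul (star (p k)) ξ, T ξ⟫_ℂ := by
        have e4 : T (rmul (p k) ξ) = rmul (p k) (T ξ) :=
          congrArg (fun S : HL M →L[ℂ] HL M => S ξ) (hT (p k) (hp k))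
        rw [e4, rmul_adj]
      have e5 : ψ k (lhom a * T) - ψ k (T * lhom a) =
          ⟪lmul (star a) ξ - rmul (star (p k)) ξ, T ξ⟫_ℂ -
            ⟪ξ, T (lmul a ξ - rmul (p k) ξ)⟫_ℂ := by
        rw [e1, e2, inner_sub_left, map_sub, inner_sub_right, e3]
        ring
      have e6 : lmul (star a) ξ - rmul (star (p k)) ξ = eta M (star a * s k - s k * star (p k)) := by
        rw [hξd, lmul_eta, rmul_eta, map_sub]
      have e7 : lmul a ξ - rmul (p k) ξ = eta M (a * s k - s k * p k) := by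
        rw [hξd, lmul_eta, rmul_eta, map_sub]
      rw [e5, e6, e7]
      refine (norm_sub_le _ _).trans (add_le_add ?_ ?_)
      · refine (norm_inner_le_norm _ _).trans ?_
        have e8 : ‖T ξ‖ ≤ ‖T‖ * C := (T.le_opNorm _).trans (by gcongr; exact hξ k)
        rw [norm_eta, mul_comm]
        have := n2_nonneg (star a * s k - s k * star (p k))
        gcongr
      · refine (norm_inner_le_norm _ _).trans ?_
        have e8 : ‖T (eta M (a * s k - s k * p k))‖ ≤ ‖T‖ * n2 (a * s k - s k * p k) := by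
          refine (T.le_opNorm _).trans ?_
          rw [norm_eta]
        calc ‖ξ‖ * ‖T (eta M (a * s k - s k * p k))‖ ≤ C * (‖T‖ * n2 (a * s k - s k * p k)) := by
              gcongr
              exact hξ k
          _ = C * ‖T‖ * n2 (a * s k - s k * p k) := by ring
    have h6 := tendsto_nhds_unique h3 h5
    exact sub_eq_zero.1 h6

/-- If the embedding `π` with `π(A) ⊆ P^ω` is unitarily conjugate to the diagonal embedding, then `A`
is amenable relative to `P`. -/
theorem amenRel_of_conj {M : Type u} [CStarAlgebra M] {τ : M →ₗ[ℂ] ℂ} (h : Stmt.IsTracialVN τ)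
    (ω : Ultrafilter ℕ) {A P : Set M} (π : M →⋆ₐ[ℂ] UPow h (ω : Filter ℕ))
    (hπ : ∀ a ∈ A, InUPow h (ω : Filter ℕ) P (π a)) {u : UPow h (ω : Filter ℕ)}
    (hu : u ∈ unitary (UPow h (ω : Filter ℕ)))
    (hux : ∀ x, π x = u * diag h (ω : Filter ℕ) x * star u) : AmenRel τ A P := by
  let _ : TracialVN M := toTracialVN h
  have hu1 : star u * u = 1 := Unitary.star_mul_self_of_mem hu
  have hu2 : u * star u = 1 := Unitary.mul_star_self_of_mem hu
  obtain ⟨s, hs⟩ := UPow.mk_surjective h (ω : Filter ℕ) (star u)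
  obtain ⟨C, hC⟩ := s.2
  have hs' : UPow.mk h (ω : Filter ℕ) (star s) = u := by
    rw [← UPow.star_mk, hs, star_star]
  refine amenRel_core ω s.seq hC ?_ ?_ A P fun a ha => ?_
  · have h1 : UPow.mk h (ω : Filter ℕ) (star s * s) = UPow.mk h (ω : Filter ℕ) 1 := by
      rw [map_mul, hs, hs', hu2, map_one]
    rw [UPow.mk_eq] at h1
    exact h1
  · have h1 : UPow.mk h (ω : Filter ℕ) (s * star s) = UPow.mk h (ω : Filter ℕ) 1 := by
      rw [map_mul, hs, hs', hu1, map_one]
    rw [UPow.mk_eq] at h1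
    exact h1
  · obtain ⟨p, hp, hpa⟩ := hπ a ha
    refine ⟨p.seq, hp, ?_, ?_⟩
    · have h1 : UPow.mk h (ω : Filter ℕ) (cst a * s) = UPow.mk h (ω : Filter ℕ) (s * p) := by
        rw [map_mul, map_mul, ← diag_eq, hs, hpa, hux, ← mul_assoc, ← mul_assoc, hu1, one_mul]
      rw [UPow.mk_eq] at h1
      exact h1
    · have h1 : UPow.mk h (ω : Filter ℕ) (cst (star a) * s) =
          UPow.mk h (ω : Filter ℕ) (s * star p) := by
        rw [map_mul, map_mul, ← diag_eq, hs, ← UPow.star_mk, hpa, ← map_star, hux, ← mul_assoc,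
          ← mul_assoc, hu1, one_mul]
      rw [UPow.mk_eq] at h1
      exact h1

/-- Part (1). -/
theorem amenRel_of_moves {M : Type u} [CStarAlgebra M] {τ : M →ₗ[ℂ] ℂ} (h : Stmt.IsII1Factor τ)
    (ω : Ultrafilter ℕ) (hJ : JungProperty (vn h) (ω : Filter ℕ)) {A P : Set M}
    (hAP : MovesInto (vn h) (ω : Filter ℕ) A P) : AmenRel τ A P := by
  obtain ⟨π, hπ, hA⟩ := hAP
  obtain ⟨u, hu, hux⟩ := hJ (diag (vn h) (ω : Filter ℕ)) π (tracePres h ω _) hπ
  exact amenRel_of_conj (vn h) ω π hA hu hux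

end Pool.Agent.H80.RA
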