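import Pool.Agent.H80.RA.L2
import Pool.Agent.H28.JT.Base

set_option autoImplicit false
set_option linter.unusedSectionVars false

/-!
# RA: relative amenability of a tensor factor
-/

universe u

open Filter Topology H80VN Pool.Agent.H68.Amp Pool.Agent.H28.JP Pool.Agent.H28.JT

namespace Pool.Agent.H80.RA

open scoped InnerProductSpace TensorProduct

section

variable {M N P H : Type u} [CStarAlgebra M] [TracialVN M] [CStarAlgebra N]
    [TracialVN N] [CStarAlgebra P] [TracialVN P] [NormedAddCommGroup H] [InnerProductSpace ℂ H]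
    [CompleteSpace H] {i : N →⋆ₐ[ℂ] M} {j : P →⋆ₐ[ℂ] M}
    {η : M →ₗ[ℂ] H} {L : M →⋆ₐ[ℂ] (H →L[ℂ] H)} {R : M → (H →L[ℂ] H)}

variable (N P) in
/-- The model of `L²(M)`. -/
abbrev WW : Type u := HT (HL N) (L2 P)

variable (N P) in
/-- `x ⊗ y ↦ x ⊗ y`. -/
noncomputable def dW : N ⊗[ℂ] P →ₗ[ℂ] WW N P where
  toFun s := HT.of (TensorProduct.map (eta N) (toL2 : P ≃ₗ[ℂ] L2 P).toLinearMap s)
  map_add' s t := by rw [map_add, HT.of_add]
  map_smul' c s := by
    rw [map_smul, HT.of_smul]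
    rfl

theorem dW_tmul (x : N) (y : P) : dW N P (x ⊗ₜ y) = HT.tm (eta N x) (toL2 y) := rfl

/-- `x ⊗ y ↦ i x * j y`. -/
noncomputable def dH (h : Ten i j) (η : M →ₗ[ℂ] H) : N ⊗[ℂ] P →ₗ[ℂ] H :=
  η.comp (Algebra.TensorProduct.lift (i : N →ₐ[ℂ] M) (j : P →ₐ[ℂ] M)
    (fun x y => h.comm x y)).toLinearMap

theorem dH_tmul (h : Ten i j) (x : N) (y : P) : dH h η (x ⊗ₜ y) = η (i x * j y) := by
  show η _ = _
  congr 1

theorem inner_tmul_tmul (h : Ten i j) (hL : IsL2 (TracialVN.tr : M →ₗ[ℂ] ℂ) η L R) (x x' : N)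
    (y y' : P) : ⟪dH h η (x ⊗ₜ y), dH h η (x' ⊗ₜ y')⟫_ℂ =
      ⟪dW N P (x ⊗ₜ y), dW N P (x' ⊗ₜ y')⟫_ℂ := by
  rw [dH_tmul, dH_tmul, dW_tmul, dW_tmul, hL.inner, HT.inner_tm, inner_eta, inner_toL2]
  have e1 : star (i x * j y) * (i x' * j y') = j (star y) * (i (star x * x') * j y') := by
    rw [star_mul, ← map_star, ← map_star, map_mul i]
    simp only [mul_assoc]
  rw [e1, TracialVN.tr_comm, mul_assoc, ← map_mul j, h.trace, TracialVN.tr_comm y']

theorem inner_dH (h : Ten i j) (hL : IsL2 (TracialVN.tr : M →ₗ[ℂ] ℂ) η L R) (s t : N ⊗[ℂ] P) :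
    ⟪dH h η s, dH h η t⟫_ℂ = ⟪dW N P s, dW N P t⟫_ℂ := by
  induction s using TensorProduct.induction_on with
  | zero => rw [map_zero, map_zero, inner_zero_left, inner_zero_left]
  | add a b ha hb => rw [map_add, map_add, inner_add_left, inner_add_left, ha, hb]
  | tmul x y =>
    induction t using TensorProduct.induction_on with
    | zero => rw [map_zero, map_zero, inner_zero_right, inner_zero_right]
    | add a b ha hb => rw [map_add, map_add, inner_add_right, inner_add_right, ha, hb]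
    | tmul x' y' => exact inner_tmul_tmul h hL x x' y y'

theorem norm_dH (h : Ten i j) (hL : IsL2 (TracialVN.tr : M →ₗ[ℂ] ℂ) η L R) (s : N ⊗[ℂ] P) :
    ‖dH h η s‖ = ‖dW N P s‖ := by
  have h1 : ‖dH h η s‖ ^ 2 = ‖dW N P s‖ ^ 2 := by
    rw [← inner_self_eq_norm_sq (𝕜 := ℂ), ← inner_self_eq_norm_sq (𝕜 := ℂ), inner_dH h hL]
  exact (sq_eq_sq₀ (norm_nonneg _) (norm_nonneg _)).1 h1

theorem dense_dH (h : Ten i j) (hL : IsL2 (TracialVN.tr : M →ₗ[ℂ] ℂ) η L R) :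
    DenseRange (dH h η) := by
  have hne : ∀ x : M, ‖η x‖ = n2 x := by
    intro x
    have h1 : ‖η x‖ ^ 2 = (TracialVN.tr (star x * x)).re := by
      rw [← hL.inner, ← inner_self_eq_norm_sq (𝕜 := ℂ)]
      rfl
    unfold n2
    rw [← h1, Real.sqrt_sq (norm_nonneg _)]
  have h1 : ∀ v ∈ Set.range η, v ∈ closure (Set.range (dH h η)) := by
    rintro _ ⟨z, rfl⟩
    rw [Metric.mem_closure_iff]
    intro ε hε
    obtain ⟨m, a, b, hab⟩ := h.dense z ε hε
    refine ⟨dH h η (∑ l, a l ⊗ₜ b l), ⟨_, rfl⟩, ?_⟩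
    have h2 : dH h η (∑ l, a l ⊗ₜ b l) = η (∑ l, i (a l) * j (b l)) := by
      rw [map_sum, map_sum]
      exact Finset.sum_congr rfl fun l _ => dH_tmul h _ _
    rw [h2, dist_eq_norm, ← map_sub, hne]
    exact hab
  intro v
  have h3 : closure (Set.range η) ⊆ closure (Set.range (dH h η)) :=
    closure_minimal h1 isClosed_closure
  exact h3 (hL.dense v)

theorem dense_dW : DenseRange (dW N P) := by
  have h1 := HT.dense_tm (E := HL N) (F := L2 P) (D := Set.range (eta N)) (D' := Set.univ)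
    (dense_eta.mono Submodule.subset_span) (dense_univ.mono Submodule.subset_span)
  refine h1.mono ?_
  have h2 : Submodule.span ℂ {v : HT (HL N) (L2 P) | ∃ x ∈ Set.range (eta N), ∃ y ∈ Set.univ,
      v = HT.tm x y} ≤ LinearMap.range (dW N P) := by
    rw [Submodule.span_le]
    rintro _ ⟨_, ⟨x, rfl⟩, y, -, rfl⟩
    exact ⟨x ⊗ₜ ((toL2 : P ≃ₗ[ℂ] L2 P).symm y), rfl⟩
  intro v hv
  exact h2 hv

/-- The unitary `L²(N) ⊗ L²(P) → L²(M)`. -/
noncomputable def UU (h : Ten i j) (hL : IsL2 (TracialVN.tr : M →ₗ[ℂ] ℂ) η L R) :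
    WW N P ≃ₗᵢ[ℂ] H :=
  (LinearEquiv.refl ℂ (N ⊗[ℂ] P)).extendOfIsometry (dW N P) (dH h η) dense_dW (dense_dH h hL)
    (norm_dH h hL)

theorem UU_dW (h : Ten i j) (hL : IsL2 (TracialVN.tr : M →ₗ[ℂ] ℂ) η L R) (s : N ⊗[ℂ] P) :
    UU h hL (dW N P s) = dH h η s :=
  LinearEquiv.extendOfIsometry_eq _ _ _ _ _ _ _

theorem ext_dH (h : Ten i j) (hL : IsL2 (TracialVN.tr : M →ₗ[ℂ] ℂ) η L R) {S T : H →L[ℂ] H}
    (hST : ∀ x y, S (dH h η (x ⊗ₜ y)) = T (dH h η (x ⊗ₜ y))) : S = T := by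
  have h1 : (fun v => S v) = fun v => T v := by
    refine DenseRange.equalizer (dense_dH h hL) S.continuous T.continuous (funext fun s => ?_)
    show S (dH h η s) = T (dH h η s)
    induction s using TensorProduct.induction_on with
    | zero => rw [map_zero, map_zero, map_zero]
    | add a b ha hb => rw [map_add, map_add, map_add, ha, hb]
    | tmul x y => exact hST x y
  ext v
  exact congrFun h1 v

/-- The operator `T ⊗ S` on `H`. -/
noncomputable def tp (h : Ten i j) (hL : IsL2 (TracialVN.tr : M →ₗ[ℂ] ℂ) η L R)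
    (T : HL N →L[ℂ] HL N) (S : L2 P →L[ℂ] L2 P) : H →L[ℂ] H :=
  ((UU h hL).toContinuousLinearEquiv : WW N P →L[ℂ] H) ∘L HT.T T S ∘L
    ((UU h hL).symm.toContinuousLinearEquiv : H →L[ℂ] WW N P)

theorem tp_apply (h : Ten i j) (hL : IsL2 (TracialVN.tr : M →ₗ[ℂ] ℂ) η L R)
    (T : HL N →L[ℂ] HL N) (S : L2 P →L[ℂ] L2 P) (v : H) :
    tp h hL T S v = UU h hL (HT.T T S ((UU h hL).symm v)) := rfl

theorem tp_mul (h : Ten i j) (hL : IsL2 (TracialVN.tr : M →ₗ[ℂ] ℂ) η L R)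
    (T T' : HL N →L[ℂ] HL N) (S S' : L2 P →L[ℂ] L2 P) :
    tp h hL (T * T') (S * S') = tp h hL T S * tp h hL T' S' := by
  ext v
  show tp h hL (T * T') (S * S') v = tp h hL T S (tp h hL T' S' v)
  rw [tp_apply, tp_apply, tp_apply, LinearIsometryEquiv.symm_apply_apply, ← HT.T_mul]
  rfl

theorem tp_dH (h : Ten i j) (hL : IsL2 (TracialVN.tr : M →ₗ[ℂ] ℂ) η L R)
    (T : HL N →L[ℂ] HL N) (S : L2 P →L[ℂ] L2 P) (x : N) (y : P) :
    tp h hL T S (dH h η (x ⊗ₜ y)) = UU h hL (HT.tm (T (eta N x)) (S (toL2 y))) := by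
  rw [tp_apply, ← UU_dW h hL, LinearIsometryEquiv.symm_apply_apply, dW_tmul, HT.T_tm]

theorem tp_left (h : Ten i j) (hL : IsL2 (TracialVN.tr : M →ₗ[ℂ] ℂ) η L R) (a : N) :
    tp h hL (lhom a) 1 = L (i a) := by
  refine ext_dH h hL fun x y => ?_
  have e1 : UU h hL (HT.tm (lhom a (eta N x)) ((1 : L2 P →L[ℂ] L2 P) (toL2 y))) =
      UU h hL (dW N P ((a * x) ⊗ₜ y)) := by
    rw [dW_tmul]
    congr 2
    exact lmul_eta a x
  rw [tp_dH, e1, UU_dW, dH_tmul, dH_tmul, hL.left, map_mul i, mul_assoc]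

theorem tp_right (h : Ten i j) (hL : IsL2 (TracialVN.tr : M →ₗ[ℂ] ℂ) η L R) (b : P) :
    tp h hL 1 (rm b) = R (j b) := by
  refine ext_dH h hL fun x y => ?_
  have e1 : UU h hL (HT.tm ((1 : HL N →L[ℂ] HL N) (eta N x)) (rm b (toL2 y))) =
      UU h hL (dW N P (x ⊗ₜ (y * b))) := by
    rw [dW_tmul]
    congr 2
  rw [tp_dH, e1, UU_dW, dH_tmul, dH_tmul, hL.right, map_mul j, mul_assoc]

theorem tp_star (h : Ten i j) (hL : IsL2 (TracialVN.tr : M →ₗ[ℂ] ℂ) η L R)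
    (T : HL N →L[ℂ] HL N) : tp h hL (star T) 1 = star (tp h hL T 1) := by
  rw [ContinuousLinearMap.star_eq_adjoint (tp h hL T 1), ContinuousLinearMap.eq_adjoint_iff]
  intro v w
  rw [tp_apply, tp_apply]
  have h1 : ∀ (a : WW N P) (b : H), ⟪UU h hL a, b⟫_ℂ = ⟪a, (UU h hL).symm b⟫_ℂ := by
    intro a b
    rw [← (UU h hL).symm.inner_map_map, LinearIsometryEquiv.symm_apply_apply]
  have h2 : ∀ (a : WW N P) (b : H), ⟪b, UU h hL a⟫_ℂ = ⟪(UU h hL).symm b, a⟫_ℂ := by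
    intro a b
    rw [← (UU h hL).symm.inner_map_map, LinearIsometryEquiv.symm_apply_apply]
  rw [h1, h2]
  refine HT.inner_T (fun x y => ?_) (fun x y => rfl) _ _
  rw [ContinuousLinearMap.star_eq_adjoint, ContinuousLinearMap.adjoint_inner_left]

end

theorem amenable_of_tensor {M N P : Type u} [CStarAlgebra M] [TracialVN M] [CStarAlgebra N]
    [TracialVN N] [CStarAlgebra P] [TracialVN P] {i : N →⋆ₐ[ℂ] M} {j : P →⋆ₐ[ℂ] M}
    (h : Ten i j)
    (hA : AmenRel (TracialVN.tr : M →ₗ[ℂ] ℂ) (Set.range i) (Set.range j)) :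
    Amenable (TracialVN.tr : N →ₗ[ℂ] ℂ) := by
  obtain ⟨H, _, _, _, η, L, R, φ, hL, hφ, hφL, hφA⟩ := hA
  let ψ : (HL N →L[ℂ] HL N) →ₗ[ℂ] ℂ :=
    { toFun := fun T => φ (tp h hL T 1)
      map_add' := fun S T => by
        rw [← map_add]
        congr 1
        ext v
        rw [add_apply, tp_apply, tp_apply, tp_apply, HT.T_add_left, add_apply, map_add]
      map_smul' := fun c T => by
        rw [RingHom.id_apply, ← map_smul]
        congr 1
        ext v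
        rw [smul_apply, tp_apply, tp_apply, HT.T_smul_left, smul_apply, map_smul] }
  have hψ : ∀ T, ψ T = φ (tp h hL T 1) := fun _ => rfl
  have h11 : ∀ S T, tp h hL (S * T) 1 = tp h hL S 1 * tp h hL T 1 := by
    intro S T
    rw [← tp_mul, one_mul]
  refine ⟨HL N, inferInstance, inferInstance, inferInstance, eta N, lhom, rmul, ψ,
    { inner := inner_eta
      dense := dense_eta
      left := lmul_eta
      right := rmul_eta }, ⟨fun T => ?_, ?_⟩, fun x => ?_, fun a _ T _ => ?_⟩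
  · rw [hψ, h11, tp_star]
    exact hφ.nonneg _
  · rw [hψ, ← hφ.one]
    congr 1
    ext v
    rw [tp_apply, HT.T_one]
    exact LinearIsometryEquiv.apply_symm_apply _ _
  · rw [hψ, tp_left, hφL, h.tr_i]
  · rw [hψ, hψ, h11, h11, tp_left]
    refine hφA (i a) ⟨a, rfl⟩ _ ?_
    rintro _ ⟨b, rfl⟩
    rw [← tp_right h hL b, ← tp_mul, ← tp_mul, one_mul, mul_one, one_mul, mul_one]

end Pool.Agent.H80.RA
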