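import Pool.Agent.H80.RA.Flip
import Pool.Agent.H80.RA.Ten
import Pool.Agent.H80.RA.Cross
import Pool.Agent.H80.RA.Comm

set_option autoImplicit false

/-!
# RA: assembly
-/

universe u

open Filter Topology H80VN Pool.Agent.H68.Amp Pool.Agent.H28.JP Pool.Agent.H28.JT

namespace Pool.Agent.H80.RA

variable {M N P : Type u} [CStarAlgebra M] [CStarAlgebra N] [CStarAlgebra P]
  {τ : M →ₗ[ℂ] ℂ} {ρ : N →ₗ[ℂ] ℂ} {σ : P →ₗ[ℂ] ℂ}

theorem amenable_left (hM : Stmt.IsTracialVN τ) (hN : Stmt.IsTracialVN ρ)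
    (hP : Stmt.IsTracialVN σ) {i : N →⋆ₐ[ℂ] M} {j : P →⋆ₐ[ℂ] M} (hij : TensorVia τ ρ σ i j)
    (h : AmenRel τ (Set.range i) (Set.range j)) : Amenable ρ := by
  let _ : TracialVN M := toTracialVN hM
  let _ : TracialVN N := toTracialVN hN
  let _ : TracialVN P := toTracialVN hP
  have hTen : Ten i j := ⟨hij.comm, hij.trace, hij.dense⟩
  exact amenable_of_tensor hTen h

end Pool.Agent.H80.RA
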